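import Mathlib
import Pool.Agent.U792.G2.Split
import Pool.Agent.U792.G2.Crit

/-!
`x ^ 2 - y ^ (2 n) = z ^ r` with `z` odd: the structure of a solution.
-/

set_option autoImplicit false

namespace Pool.Agent.U792.D2

/-- the square root of one -/
def eps : ℤ√1 := ⟨0, 1⟩

theorem eps_sq : eps ^ 2 = ((1 : ℤ) : ℤ√1) := by
  rw [eps, Zsqrtd.ext_iff, sq]
  simp only [Zsqrtd.re_mul, Zsqrtd.im_mul, Zsqrtd.re_intCast, Zsqrtd.im_intCast]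
  norm_num

theorem mk_eq (g h : ℤ) : (⟨g, h⟩ : ℤ√1) = (g : ℤ√1) + (h : ℤ√1) * eps := by
  rw [eps, Zsqrtd.ext_iff]
  simp only [Zsqrtd.re_add, Zsqrtd.im_add, Zsqrtd.re_mul, Zsqrtd.im_mul, Zsqrtd.re_intCast,
    Zsqrtd.im_intCast]
  constructor <;> ring

theorem im_cast_mul_eps (a : ℤ) : ((a : ℤ√1) * eps).im = a := by
  rw [eps]
  simp only [Zsqrtd.im_mul, Zsqrtd.re_intCast, Zsqrtd.im_intCast]
  ring

theorem re_cast_mul_eps (a : ℤ) : ((a : ℤ√1) * eps).re = 0 := by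
  rw [eps]
  simp only [Zsqrtd.re_mul, Zsqrtd.re_intCast, Zsqrtd.im_intCast]
  ring

theorem re_im_pow (g h : ℤ) (m : ℕ) :
    ((⟨g, h⟩ : ℤ√1) ^ m).re + ((⟨g, h⟩ : ℤ√1) ^ m).im = (g + h) ^ m ∧
      ((⟨g, h⟩ : ℤ√1) ^ m).re - ((⟨g, h⟩ : ℤ√1) ^ m).im = (g - h) ^ m := by
  induction m with
  | zero => simp
  | succ m ih =>
    obtain ⟨h1, h2⟩ := ih
    rw [pow_succ, pow_succ, pow_succ, ← h1, ← h2, Zsqrtd.re_mul, Zsqrtd.im_mul]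
    constructor <;> ring

theorem mod_h (g h : ℤ) (k : ℕ) :
    ∃ c d : ℤ, ((⟨g, h⟩ : ℤ√1) ^ (2 * k + 1)).re = g ^ (2 * k + 1) + h ^ 2 * c ∧
      ((⟨g, h⟩ : ℤ√1) ^ (2 * k + 1)).im = h * d := by
  obtain ⟨c, hc⟩ := Polynomial.powAddExpansion (g : ℤ√1) ((h : ℤ√1) * eps) (2 * k + 1)
  refine ⟨c.re, (2 * k + 1) * g ^ (2 * k) + c.im * h, ?_⟩
  have e1 : (g : ℤ√1) ^ (2 * k + 1) = ((g ^ (2 * k + 1) : ℤ) : ℤ√1) := by push_cast; rfl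
  have e2 : ((2 * k + 1 : ℕ) : ℤ√1) * (g : ℤ√1) ^ (2 * k + 1 - 1) * ((h : ℤ√1) * eps) =
      (((2 * k + 1) * g ^ (2 * k) * h : ℤ) : ℤ√1) * eps := by
    rw [Nat.add_sub_cancel]
    push_cast
    ring
  have e3 : c * ((h : ℤ√1) * eps) ^ 2 = c * ((h ^ 2 : ℤ) : ℤ√1) := by
    rw [mul_pow, eps_sq]
    push_cast
    ring
  rw [mk_eq, hc, e1, e2, e3]
  constructor
  · rw [Zsqrtd.re_add, Zsqrtd.re_add, re_cast_mul_eps, Zsqrtd.re_intCast, Zsqrtd.re_mul,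
      Zsqrtd.re_intCast, Zsqrtd.im_intCast]
    ring
  · rw [Zsqrtd.im_add, Zsqrtd.im_add, im_cast_mul_eps, Zsqrtd.im_intCast, Zsqrtd.im_mul,
      Zsqrtd.re_intCast, Zsqrtd.im_intCast]
    ring

theorem he_even (h : ℤ) (k : ℕ) :
    ((h : ℤ√1) * eps) ^ (2 * k) = ((h ^ (2 * k) : ℤ) : ℤ√1) := by
  rw [mul_pow, pow_mul eps, eps_sq]
  push_cast
  ring

theorem he_odd (h : ℤ) (k : ℕ) :
    ((h : ℤ√1) * eps) ^ (2 * k + 1) = ((h ^ (2 * k + 1) : ℤ) : ℤ√1) * eps := by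
  rw [pow_succ, he_even]
  push_cast
  ring

theorem mod_g (g h : ℤ) (k : ℕ) :
    ∃ c : ℤ, ((⟨g, h⟩ : ℤ√1) ^ (2 * k + 1)).re = g * ((2 * k + 1) * h ^ (2 * k) + g * c) := by
  obtain ⟨c, hc⟩ := Polynomial.powAddExpansion ((h : ℤ√1) * eps) (g : ℤ√1) (2 * k + 1)
  refine ⟨c.re, ?_⟩
  have e2 : ((2 * k + 1 : ℕ) : ℤ√1) * ((h : ℤ√1) * eps) ^ (2 * k + 1 - 1) * (g : ℤ√1) =
      (((2 * k + 1) * h ^ (2 * k) * g : ℤ) : ℤ√1) := by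
    rw [Nat.add_sub_cancel, he_even]
    push_cast
    ring
  have e3 : c * (g : ℤ√1) ^ 2 = c * ((g ^ 2 : ℤ) : ℤ√1) := by push_cast; rfl
  have hg : (⟨g, h⟩ : ℤ√1) = (h : ℤ√1) * eps + (g : ℤ√1) := by rw [mk_eq, add_comm]
  rw [hg, hc, he_odd, e2, e3, Zsqrtd.re_add, Zsqrtd.re_add, re_cast_mul_eps, Zsqrtd.re_intCast,
    Zsqrtd.re_mul, Zsqrtd.re_intCast, Zsqrtd.im_intCast]
  ring

/-- The shape of a solution of `x ^ 2 - (y ^ n) ^ 2 = z ^ r`, `z` odd, `r = 2 k + 1`. -/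
theorem shape {n k : ℕ} (hn : Odd n) {x y z : ℤ} (hxy : IsCoprime x y) (hz : Odd z)
    (hry : IsCoprime ((2 * k + 1 : ℕ) : ℤ) y) (h : x ^ 2 - y ^ (2 * n) = z ^ (2 * k + 1)) :
    ∃ g u Y W : ℤ, (g + u) ^ (2 * k + 1) = y ^ n + x ∧ (g - u) ^ (2 * k + 1) = y ^ n - x ∧
      Odd (g + u) ∧ IsCoprime u g ∧ g = W ^ n ∧ g * Y ^ n = y ^ n ∧ IsCoprime g (Y ^ n) ∧ u ∣ x ∧
      u ^ 2 ∣ Y ^ n - g ^ (2 * k) := by
  have hxw : IsCoprime x (y ^ n) := hxy.pow_right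
  have hfac0 : (x + y ^ n) * (x - y ^ n) = z ^ (2 * k + 1) := by
    rw [← h, mul_comm 2 n, pow_mul]
    ring
  obtain ⟨t, ht⟩ := hz.pow (n := 2 * k + 1)
  obtain ⟨s1, s2, hs⟩ := hxw
  have hco0 : IsCoprime (x + y ^ n) (x - y ^ n) := by
    refine ⟨(x - y ^ n) - t * (s1 + s2), - t * (s1 - s2), ?_⟩
    have h3 : (x + y ^ n) * (x - y ^ n) = 2 * t + 1 := by rw [hfac0, ht]
    linear_combination h3 - 2 * t * hs
  obtain ⟨⟨b, hb⟩, a, ha⟩ := Int.eq_pow_of_mul_eq_pow_odd hco0 ⟨k, rfl⟩ hfac0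
  have hoddz : Odd ((x + y ^ n) * (x - y ^ n)) := by
    rw [hfac0]
    exact hz.pow
  rw [Int.odd_mul, hb, ha, Int.odd_pow' (by omega), Int.odd_pow' (by omega)] at hoddz
  obtain ⟨hbo, hao⟩ := hoddz
  obtain ⟨b', hb'⟩ := hbo
  obtain ⟨a', ha'⟩ := hao
  set g : ℤ := b' - a' with hgdef
  set u : ℤ := b' + a' + 1 with hudef
  have e1 : g + u = b := by rw [hgdef, hudef, hb']; ring
  have e2 : g - u = -a := by rw [hgdef, hudef, ha']; ring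
  have h1 : (g + u) ^ (2 * k + 1) = y ^ n + x := by
    rw [e1, ← hb]
    ring
  have h2 : (g - u) ^ (2 * k + 1) = y ^ n - x := by
    rw [e2, (show Odd (2 * k + 1) from ⟨k, rfl⟩).neg_pow, ← ha]
    ring
  have hP : (⟨g, u⟩ : ℤ√1) ^ (2 * k + 1) = ⟨y ^ n, x⟩ := by
    obtain ⟨h3, h4⟩ := re_im_pow g u (2 * k + 1)
    rw [h1] at h3
    rw [h2] at h4
    rw [Zsqrtd.ext_iff]
    constructor
    · show _ = y ^ n
      linarith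
    · show _ = x
      linarith
  have hug : IsCoprime u g := by
    rw [Int.isCoprime_iff_gcd_eq_one]
    have h3 : ((Int.gcd u g : ℤ) : ℤ√1) ∣ (⟨g, u⟩ : ℤ√1) := by
      rw [Zsqrtd.intCast_dvd]
      exact ⟨Int.gcd_dvd_right .., Int.gcd_dvd_left ..⟩
    have h4 : ((Int.gcd u g : ℤ) : ℤ√1) ∣ (⟨y ^ n, x⟩ : ℤ√1) := by
      rw [← hP]
      exact dvd_pow h3 (by omega)
    rw [Zsqrtd.intCast_dvd] at h4
    have h5 : IsCoprime x (y ^ n) := ⟨s1, s2, hs⟩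
    have h6 := h5.isUnit_of_dvd' h4.2 h4.1
    rw [Int.isUnit_iff] at h6
    omega
  obtain ⟨c, hc⟩ := mod_g g u k
  obtain ⟨c', d, hc', hd⟩ := mod_h g u k
  rw [hP] at hc hc' hd
  simp only at hc hc' hd
  have hfac : g * ((2 * k + 1) * u ^ (2 * k) + g * c) = y ^ n := hc.symm
  have hgr : IsCoprime g ((2 * k + 1 : ℕ) : ℤ) :=
    IsCoprime.of_isCoprime_of_dvd_left (hry.symm.pow_left (m := n)) ⟨_, hc⟩
  have hco : IsCoprime g ((2 * k + 1) * u ^ (2 * k) + g * c) := by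
    have h3 : IsCoprime g (((2 * k + 1 : ℕ) : ℤ) * u ^ (2 * k)) :=
      hgr.mul_right hug.symm.pow_right
    have h4 := h3.add_mul_left_right c
    push_cast at h4
    exact h4
  obtain ⟨⟨W, hW⟩, Y, hY⟩ := Int.eq_pow_of_mul_eq_pow_odd hco hn hfac
  rw [hY] at hfac hco
  refine ⟨g, u, Y, W, h1, h2, ?_, hug, hW, hfac, hco, ⟨d, hd⟩, ?_⟩
  · rw [e1]
    exact ⟨b', hb'⟩
  · have h5 : u ^ 2 ∣ g * (Y ^ n - g ^ (2 * k)) := by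
      refine ⟨c', ?_⟩
      rw [mul_sub, hfac, hc']
      ring
    exact (hug.pow_left).dvd_of_dvd_mul_left h5

end Pool.Agent.U792.D2
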