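import Mathlib
import Pool.Agent.U792.D2.Shape

/-!
Sizes for `x ^ 2 - y ^ (2 n) = z ^ r`, `z` odd.
-/

set_option autoImplicit false

namespace Pool.Agent.U792.D2

theorem pos_aux (p q : ℝ) (hp : 0 < p) (hq : 0 < q) (m : ℕ) :
    2 * p ^ m ≤ (p + q) ^ m + (p - q) ^ m ∧ 0 ≤ (p + q) ^ m - (p - q) ^ m := by
  induction m with
  | zero => norm_num
  | succ m ih =>
    obtain ⟨h1, h2⟩ := ih
    have h3 : 0 < p ^ m := by positivity
    constructor
    · calc 2 * p ^ (m + 1) = p * (2 * p ^ m) := by ring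
        _ ≤ p * ((p + q) ^ m + (p - q) ^ m) + q * ((p + q) ^ m - (p - q) ^ m) := by
          have h4 : p * (2 * p ^ m) ≤ p * ((p + q) ^ m + (p - q) ^ m) := by gcongr
          have h5 : 0 ≤ q * ((p + q) ^ m - (p - q) ^ m) := mul_nonneg hq.le h2
          linarith
        _ = _ := by ring
    · have h4 : (p + q) ^ (m + 1) - (p - q) ^ (m + 1) =
          p * ((p + q) ^ m - (p - q) ^ m) + q * ((p + q) ^ m + (p - q) ^ m) := by ring
      rw [h4]
      have h5 : 0 ≤ (p + q) ^ m + (p - q) ^ m := by linarith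
      exact add_nonneg (mul_nonneg hp.le h2) (mul_nonneg hq.le h5)

theorem pos_aux2 (p q : ℝ) (hp : 0 < p) (hq : 0 < q) (m : ℕ) :
    2 * p ^ (m + 2) < (p + q) ^ (m + 2) + (p - q) ^ (m + 2) := by
  obtain ⟨h1, h2⟩ := pos_aux p q hp hq m
  have h3 : (p + q) ^ (m + 2) + (p - q) ^ (m + 2) =
      (p ^ 2 + q ^ 2) * ((p + q) ^ m + (p - q) ^ m) + 2 * p * q * ((p + q) ^ m - (p - q) ^ m) := by
    ring
  rw [h3]
  have h4 : 0 < p ^ m := by positivity
  have h5 : (p ^ 2 + q ^ 2) * (2 * p ^ m) ≤ (p ^ 2 + q ^ 2) * ((p + q) ^ m + (p - q) ^ m) := by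
    gcongr
  have h6 : 0 ≤ 2 * p * q * ((p + q) ^ m - (p - q) ^ m) := by positivity
  have h7 : 0 < q ^ 2 * (2 * p ^ m) := by positivity
  calc 2 * p ^ (m + 2) = p ^ 2 * (2 * p ^ m) := by ring
    _ < (p ^ 2 + q ^ 2) * (2 * p ^ m) := by linarith
    _ ≤ _ := by linarith

/-- `F` is larger than `g ^ (2 k)`, where `g F` is the even part of `(g + u) ^ (2 k + 1)`. -/
theorem F_gt {g u F : ℝ} {k : ℕ} (hk : 1 ≤ k) (hg : g ≠ 0) (hu : u ≠ 0)
    (hF : 2 * (g * F) = (g + u) ^ (2 * k + 1) + (g - u) ^ (2 * k + 1)) : g ^ (2 * k) < F := by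
  have hodd : Odd (2 * k + 1) := ⟨k, rfl⟩
  -- reduce to `u > 0`
  have key : ∀ g u : ℝ, 0 < g → 0 < u →
      2 * (g * F) = (g + u) ^ (2 * k + 1) + (g - u) ^ (2 * k + 1) → g ^ (2 * k) < F := by
    intro g u hg hu hF
    obtain ⟨q, rfl⟩ : ∃ q, k = q + 1 := ⟨k - 1, by omega⟩
    have h1 := pos_aux2 g u hg hu (2 * q + 1)
    have e : 2 * q + 1 + 2 = 2 * (q + 1) + 1 := by ring
    rw [e, ← hF] at h1
    have h2 : g * g ^ (2 * (q + 1)) < g * F := by
      rw [← pow_succ']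
      linarith
    exact lt_of_mul_lt_mul_left h2 hg.le
  have h0 : g ^ (2 * k) = |g| ^ (2 * k) := by rw [pow_mul, pow_mul, sq_abs]
  rw [h0]
  refine key |g| |u| (abs_pos.2 hg) (abs_pos.2 hu) ?_
  rcases abs_choice g with h1 | h1 <;> rcases abs_choice u with h2 | h2 <;> rw [h1, h2]
  · exact hF
  · rw [hF]
    ring
  · have h3 : (-g + u) = -(g - u) := by ring
    have h4 : (-g - u) = -(g + u) := by ring
    rw [h3, h4, hodd.neg_pow, hodd.neg_pow]
    linarith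
  · have h3 : (-g + -u) = -(g + u) := by ring
    have h4 : (-g - -u) = -(g - u) := by ring
    rw [h3, h4, hodd.neg_pow, hodd.neg_pow]
    linarith

theorem max_abs (g u : ℝ) : max |g + u| |g - u| = |g| + |u| := by
  rcases le_total 0 g with h1 | h1 <;> rcases le_total 0 u with h2 | h2
  · rw [abs_of_nonneg h1, abs_of_nonneg h2, abs_of_nonneg (by linarith : 0 ≤ g + u)]
    exact max_eq_left (abs_le.2 ⟨by linarith, by linarith⟩)
  · rw [abs_of_nonneg h1, abs_of_nonpos h2, abs_of_nonneg (by linarith : 0 ≤ g - u)]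
    rw [max_eq_right (abs_le.2 ⟨by linarith, by linarith⟩)]
    ring
  · rw [abs_of_nonpos h1, abs_of_nonneg h2, abs_of_nonpos (by linarith : g - u ≤ 0)]
    rw [max_eq_right (abs_le.2 ⟨by linarith, by linarith⟩)]
    ring
  · rw [abs_of_nonpos h1, abs_of_nonpos h2, abs_of_nonpos (by linarith : g + u ≤ 0)]
    rw [max_eq_left (abs_le.2 ⟨by linarith, by linarith⟩)]
    ring

theorem F_le {g u F : ℝ} {k : ℕ} (hg : g ≠ 0)
    (hF : 2 * (g * F) = (g + u) ^ (2 * k + 1) + (g - u) ^ (2 * k + 1)) :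
    |F| ≤ (2 * k + 1) * (|g| + |u|) ^ (2 * k) := by
  have hodd : Odd (2 * k + 1) := ⟨k, rfl⟩
  have h1 := abs_pow_sub_pow_le (g + u) (-(g - u)) (2 * k + 1)
  rw [hodd.neg_pow, sub_neg_eq_add, ← hF, abs_neg, max_abs, Nat.add_sub_cancel] at h1
  have h2 : (g + u) - -(g - u) = 2 * g := by ring
  rw [h2, abs_mul, abs_mul, abs_mul, abs_of_pos (by norm_num : (0 : ℝ) < 2)] at h1
  have h3 : 0 < |g| := abs_pos.2 hg
  push_cast at h1
  have h4 : |g| * |F| ≤ |g| * ((2 * k + 1) * (|g| + |u|) ^ (2 * k)) := by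
    have e : 2 * |g| * (2 * (k : ℝ) + 1) * (|g| + |u|) ^ (2 * k) =
        2 * (|g| * ((2 * k + 1) * (|g| + |u|) ^ (2 * k))) := by ring
    rw [e] at h1
    linarith
  exact le_of_mul_le_mul_left h4 h3

theorem second_real (a b : ℝ) (j : ℕ) :
    |(a + b) ^ (j + 2) - a ^ (j + 2) - (j + 2) * a ^ (j + 1) * b| ≤
      (j + 2) * (j + 1) / 2 * |b| ^ 2 * (|a| + |b|) ^ j := by
  have h1 := Pool.Agent.U792.G2.second_order (a : ℂ) (b : ℂ) j
  have h2 : ((a : ℂ) + b) ^ (j + 2) - (a : ℂ) ^ (j + 2) - (j + 2) * (a : ℂ) ^ (j + 1) * b =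
      (((a + b) ^ (j + 2) - a ^ (j + 2) - (j + 2) * a ^ (j + 1) * b : ℝ) : ℂ) := by
    push_cast
    ring
  rw [h2, Complex.norm_real, Complex.norm_real, Complex.norm_real, Real.norm_eq_abs,
    Real.norm_eq_abs, Real.norm_eq_abs] at h1
  exact h1

theorem F_diff {g u F : ℝ} {q : ℕ}
    (hF : 2 * (g * F) = (g + u) ^ (2 * (q + 1) + 1) + (g - u) ^ (2 * (q + 1) + 1)) :
    |g| * |F - g ^ (2 * (q + 1))| ≤ (q + 1) * (2 * q + 3) * u ^ 2 * (|g| + |u|) ^ (2 * q + 1) := by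
  have h1 := second_real g u (2 * q + 1)
  have h2 := second_real g (-u) (2 * q + 1)
  rw [abs_neg] at h2
  have e : 2 * q + 1 + 2 = 2 * (q + 1) + 1 := by ring
  rw [e] at h1 h2
  have h3 : g * (F - g ^ (2 * (q + 1))) =
      (((g + u) ^ (2 * (q + 1) + 1) - g ^ (2 * (q + 1) + 1) -
        ((2 * q + 1 : ℕ) + 2) * g ^ (2 * q + 1 + 1) * u) +
      ((g + -u) ^ (2 * (q + 1) + 1) - g ^ (2 * (q + 1) + 1) -
        ((2 * q + 1 : ℕ) + 2) * g ^ (2 * q + 1 + 1) * (-u))) / 2 := by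
    have h4 : g + -u = g - u := by ring
    rw [h4]
    have h5 : g * F = ((g + u) ^ (2 * (q + 1) + 1) + (g - u) ^ (2 * (q + 1) + 1)) / 2 := by
      linarith
    rw [mul_sub, h5]
    ring
  rw [← abs_mul, h3, abs_div, abs_of_pos (by norm_num : (0 : ℝ) < 2)]
  rw [div_le_iff₀ (by norm_num)]
  refine (abs_add_le _ _).trans ((add_le_add h1 h2).trans (le_of_eq ?_))
  rw [sq_abs]
  push_cast
  ring

end Pool.Agent.U792.D2
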