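import Mathlib
import Pool.Agent.U792.D2.Size

/-!
The main inequality for `x ^ 2 - y ^ (2 n) = z ^ r`, `z` odd.
-/

set_option autoImplicit false

namespace Pool.Agent.U792.D2

open Pool.Agent.U792.G2

/-- the data extracted from a solution; `D` is a divisor of `u` where `n`-th roots are unique -/
structure Data (n k : ℕ) (x y : ℤ) (g u Y V W : ℤ) : Prop where
  p1 : (g + u) ^ (2 * k + 1) = y ^ n + x
  p2 : (g - u) ^ (2 * k + 1) = y ^ n - x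
  odd : Odd (g + u)
  cop : IsCoprime u g
  gW : g = W ^ n
  VW : V = W ^ (2 * k)
  Vn : V ^ n = g ^ (2 * k)
  fac : g * Y ^ n = y ^ n
  ux : u ∣ x
  u0 : u ≠ 0
  g0 : g ≠ 0
  Vpos : 0 < V
  YV : V < Y
  root : ∀ D : ℕ, (D : ℤ) ∣ u → (∀ l : ℕ, l.Prime → l ∣ D → Nat.Coprime (l * (l - 1)) n) →
    D ≠ 0 → ((D : ℝ)) ^ 2 ≤ (Y : ℝ) - V
  FR : 2 * ((g : ℝ) * (Y : ℝ) ^ n) = ((g : ℝ) + u) ^ (2 * k + 1) + ((g : ℝ) - u) ^ (2 * k + 1)

theorem data {n k : ℕ} (hn : Odd n) (hk : 1 ≤ k) {x y z : ℤ} (hx : x ≠ 0) (hy : y ≠ 0)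
    (hxy : IsCoprime x y) (hz : Odd z)
    (hry : IsCoprime ((2 * k + 1 : ℕ) : ℤ) y) (h : x ^ 2 - y ^ (2 * n) = z ^ (2 * k + 1)) :
    ∃ g u Y V W : ℤ, Data n k x y g u Y V W := by
  obtain ⟨g, u, Y, W, p1, p2, hodd, hug, hgW, hfac, hco, hux, hmod⟩ := shape hn hxy hz hry h
  have hn0 : n ≠ 0 := by
    rintro rfl
    simp at hn
  have hu0 : u ≠ 0 := by
    rintro rfl
    exact hx (zero_dvd_iff.1 hux)
  have hg0 : g ≠ 0 := by
    rintro rfl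
    rw [zero_mul] at hfac
    exact hy (pow_eq_zero_iff hn0 |>.1 hfac.symm)
  set V : ℤ := W ^ (2 * k) with hV
  have hVn : V ^ n = g ^ (2 * k) := by
    rw [hV, hgW, ← pow_mul, ← pow_mul, mul_comm n]
  rw [← hVn] at hmod
  have hW0 : W ≠ 0 := by
    rintro rfl
    rw [zero_pow hn0] at hgW
    exact hg0 hgW
  have hVpos : 0 < V := by
    rw [hV, pow_mul]
    positivity
  have hFR : 2 * ((g : ℝ) * (Y : ℝ) ^ n) =
      ((g : ℝ) + u) ^ (2 * k + 1) + ((g : ℝ) - u) ^ (2 * k + 1) := by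
    have h1 : 2 * (g * Y ^ n) = (g + u) ^ (2 * k + 1) + (g - u) ^ (2 * k + 1) := by
      rw [p1, p2, hfac]
      ring
    exact_mod_cast h1
  have hYV : V < Y := by
    have h1 := F_gt hk (by exact_mod_cast hg0) (by exact_mod_cast hu0) hFR
    have h2 : ((V : ℝ)) ^ n = (g : ℝ) ^ (2 * k) := by exact_mod_cast hVn
    rw [← h2] at h1
    have h3 : V ^ n < Y ^ n := by exact_mod_cast h1
    exact (hn.strictMono_pow).lt_iff_lt.1 h3
  have huW : IsCoprime u W := by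
    rw [hgW] at hug
    exact (IsCoprime.pow_right_iff (by omega)).1 hug
  have huV : IsCoprime u V := by
    rw [hV]
    exact huW.pow_right
  have huY : IsCoprime u Y := by
    have h1 : IsCoprime u (V ^ n) := huV.pow_right
    obtain ⟨c, hc⟩ := hmod
    have h2 : Y ^ n = V ^ n + u * (u * c) := by linear_combination hc
    have h3 := h1.add_mul_left_right (u * c)
    rw [← h2] at h3
    exact (IsCoprime.pow_right_iff (by omega)).1 h3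
  refine ⟨g, u, Y, V, W, p1, p2, hodd, hug, hgW, hV, hVn, hfac, hux, hu0, hg0, hVpos, hYV, ?_, hFR⟩
  intro D hDu hD hD0
  have hD2Y : IsCoprime ((D ^ 2 : ℕ) : ℤ) Y := by
    push_cast
    exact (IsCoprime.of_isCoprime_of_dvd_left huY hDu).pow_left
  have hD2V : IsCoprime ((D ^ 2 : ℕ) : ℤ) V := by
    push_cast
    exact (IsCoprime.of_isCoprime_of_dvd_left huV hDu).pow_left
  have hD2 : ((D ^ 2 : ℕ) : ℤ) ∣ Y - V := by
    refine dvd_sub_of_dvd_pow_sub (by positivity) (totient_coprime hD) hD2Y hD2V ?_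
    push_cast
    exact (pow_dvd_pow_of_dvd hDu 2).trans hmod
  have h1 := Int.le_of_dvd (sub_pos.2 hYV) hD2
  have h2 : (((D ^ 2 : ℕ) : ℤ) : ℝ) ≤ ((Y - V : ℤ) : ℝ) := by exact_mod_cast h1
  push_cast at h2
  exact h2

theorem Data.height {n k : ℕ} {x y g u Y V W : ℤ} (d : Data n k x y g u Y V W) :
    |(x : ℝ)| + |(y : ℝ)| ^ n ≤ (|(g : ℝ)| + |(u : ℝ)|) ^ (2 * k + 1) := by
  have h1 : ((g : ℝ) + u) ^ (2 * k + 1) = (y : ℝ) ^ n + x := by exact_mod_cast d.p1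
  have h2 : ((g : ℝ) - u) ^ (2 * k + 1) = (y : ℝ) ^ n - x := by exact_mod_cast d.p2
  have h3 : |(g : ℝ) + u| ≤ |(g : ℝ)| + |(u : ℝ)| := abs_add_le _ _
  have h4 : |(g : ℝ) - u| ≤ |(g : ℝ)| + |(u : ℝ)| := abs_sub _ _
  have h5 : |(y : ℝ) ^ n + x| ≤ (|(g : ℝ)| + |(u : ℝ)|) ^ (2 * k + 1) := by
    rw [← h1, abs_pow]
    gcongr
  have h6 : |(y : ℝ) ^ n - x| ≤ (|(g : ℝ)| + |(u : ℝ)|) ^ (2 * k + 1) := by
    rw [← h2, abs_pow]
    gcongr
  rw [← abs_pow]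
  rw [abs_le] at h5 h6
  rcases abs_choice (x : ℝ) with h7 | h7 <;> rcases abs_choice ((y : ℝ) ^ n) with h8 | h8 <;>
    rw [h7, h8] <;> linarith [h5.1, h5.2, h6.1, h6.2]

theorem main_aux {n k : ℕ} (hn3 : 3 ≤ n) (hk : 1 ≤ k) (hkn : k ≤ n) {x y : ℤ}
    {g u Y V W : ℤ} (d : Data n k x y g u Y V W) :
    ∃ E : ℕ, (E : ℤ) ∣ x ∧ (∀ l : ℕ, l.Prime → l ∣ E → 1 < Nat.gcd n (l * (l - 1))) ∧
      (|(g : ℝ)| + |(u : ℝ)|) ^ 2 ≤ 16 * (2 * k + 1) ^ 2 * (E : ℝ) ^ 2 *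
        ((|(g : ℝ)| + |(u : ℝ)|) ^ 2) ^ ((k : ℝ) / n) := by
  have hn0 : n ≠ 0 := by omega
  have hu0 := d.u0
  have hg0 := d.g0
  obtain ⟨D, E, hDE, hD, hE⟩ := exists_split n hn0 u.natAbs (Int.natAbs_ne_zero.2 hu0)
  have hD0 : D ≠ 0 := by
    rintro rfl
    rw [zero_mul] at hDE
    exact hu0 (Int.natAbs_eq_zero.1 hDE)
  have hE0 : E ≠ 0 := by
    rintro rfl
    rw [mul_zero] at hDE
    exact hu0 (Int.natAbs_eq_zero.1 hDE)
  have hEu : (E : ℤ) ∣ u := by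
    rw [Int.natCast_dvd, hDE]
    exact Dvd.intro_left _ rfl
  have hDu : (D : ℤ) ∣ u := by
    rw [Int.natCast_dvd, hDE]
    exact Dvd.intro _ rfl
  have hle := d.root D hDu hD hD0
  refine ⟨E, hEu.trans d.ux, hE, ?_⟩
  have hu0R : (0 : ℝ) < |(u : ℝ)| := abs_pos.2 (by exact_mod_cast hu0)
  have hg0R : (0 : ℝ) < |(g : ℝ)| := abs_pos.2 (by exact_mod_cast hg0)
  set B : ℝ := |(g : ℝ)| + |(u : ℝ)| with hB
  have hBpos : 0 < B := by positivity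
  set ζ : ℝ := (B ^ 2) ^ ((k : ℝ) / n) with hζ
  have hζ0 : 0 < ζ := Real.rpow_pos_of_pos (by positivity) _
  have hζn : ζ ^ n = (B ^ 2) ^ k := by
    rw [hζ, ← Real.rpow_natCast, ← Real.rpow_mul (by positivity),
      div_mul_cancel₀ _ (by exact_mod_cast hn0), Real.rpow_natCast]
  have hVpos : (0 : ℝ) < V := by exact_mod_cast d.Vpos
  have hYV : (V : ℝ) < Y := by exact_mod_cast d.YV
  have hVn : (V : ℝ) ^ n = ((g : ℝ) ^ 2) ^ k := by
    rw [← pow_mul]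
    exact_mod_cast d.Vn
  have hVle : (V : ℝ) ≤ ζ := by
    refine le_of_pow_le_pow_left₀ hn0 hζ0.le ?_
    rw [hVn, hζn, ← sq_abs (g : ℝ)]
    gcongr
    linarith
  have hYle : (Y : ℝ) ≤ 2 * ζ := by
    refine le_of_pow_le_pow_left₀ hn0 (by positivity) ?_
    rw [mul_pow, hζn]
    have h1 := (le_abs_self _).trans (F_le (by exact_mod_cast hg0) d.FR)
    refine h1.trans ?_
    have h2 : ((2 : ℝ) * k + 1) ≤ 2 ^ n := by
      have h3 := two_pow_ge hn3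
      have h4 : 2 * k + 1 ≤ 2 ^ n := by omega
      exact_mod_cast h4
    rw [← hB, pow_mul]
    gcongr
  have huDE : |(u : ℝ)| = D * E := by
    have h1 : |(u : ℝ)| = (u.natAbs : ℝ) := by
      rw [Nat.cast_natAbs]
      push_cast
      rfl
    rw [h1, hDE]
    push_cast
    rfl
  have hu2 : (u : ℝ) ^ 2 = (D : ℝ) ^ 2 * (E : ℝ) ^ 2 := by
    rw [← sq_abs, huDE]
    ring
  have hDpos : (0 : ℝ) < D := by exact_mod_cast Nat.pos_of_ne_zero hD0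
  have hEpos : (0 : ℝ) < E := by exact_mod_cast Nat.pos_of_ne_zero hE0
  have hkR : (1 : ℝ) ≤ k := by exact_mod_cast hk
  by_cases hcase : 2 * (2 * (k : ℝ) + 1) * |(u : ℝ)| ≤ |(g : ℝ)|
  · obtain ⟨q, rfl⟩ : ∃ q, k = q + 1 := ⟨k - 1, by omega⟩
    have h1 := F_diff d.FR
    push_cast at hcase ⊢
    set R : ℝ := 2 * ((q : ℝ) + 1) + 1 with hR
    have hq0 : (0 : ℝ) ≤ q := Nat.cast_nonneg q
    have hRpos : 0 < R := by positivity
    have h5 : (|(g : ℝ)| + |(u : ℝ)|) ^ (2 * q + 1) ≤ 2 * |(g : ℝ)| ^ (2 * q + 1) := by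
      have h6 : |(g : ℝ)| + |(u : ℝ)| ≤ |(g : ℝ)| * Real.exp (1 / (2 * R)) := by
        have h7 := Real.add_one_le_exp (1 / (2 * R))
        have h8 : |(u : ℝ)| ≤ |(g : ℝ)| * (1 / (2 * R)) := by
          rw [mul_one_div, le_div_iff₀ (by positivity)]
          linarith
        nlinarith
      calc (|(g : ℝ)| + |(u : ℝ)|) ^ (2 * q + 1)
          ≤ (|(g : ℝ)| * Real.exp (1 / (2 * R))) ^ (2 * q + 1) := by gcongr
        _ = |(g : ℝ)| ^ (2 * q + 1) * Real.exp (((2 * q + 1 : ℕ) : ℝ) * (1 / (2 * R))) := by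
            rw [mul_pow, ← Real.exp_nat_mul]
        _ ≤ |(g : ℝ)| ^ (2 * q + 1) * 2 := by
            gcongr
            have h9 : (((2 * q + 1 : ℕ) : ℝ) * (1 / (2 * R))) ≤ 1 / 2 := by
              rw [mul_one_div, div_le_div_iff₀ (by positivity) (by norm_num)]
              push_cast
              rw [hR]
              linarith
            calc _ ≤ Real.exp (1 / 2) := Real.exp_le_exp.2 h9
              _ ≤ 2 := by
                have h10 : Real.exp (1 / 2) * Real.exp (1 / 2) ≤ 4 := by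
                  rw [← Real.exp_add]
                  norm_num
                  have := Real.exp_one_lt_d9
                  linarith
                nlinarith [Real.exp_pos (1 / 2)]
        _ = _ := by ring
    have hF : (Y : ℝ) ^ n - (g : ℝ) ^ (2 * (q + 1)) = (Y : ℝ) ^ n - (V : ℝ) ^ n := by
      rw [hVn, ← pow_mul]
    rw [hF] at h1
    have h2 : |(Y : ℝ) - V| * |(V : ℝ)| ^ (n - 1) ≤ |(Y : ℝ) ^ n - (V : ℝ) ^ n| :=
      abs_pow_sub_ge (mul_pos (hVpos.trans hYV) hVpos) hn0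
    rw [abs_of_pos (sub_pos.2 hYV), abs_of_pos hVpos] at h2
    have h3 : (D : ℝ) ^ 2 * (|(g : ℝ)| * (V : ℝ) ^ (n - 1)) ≤
        (D : ℝ) ^ 2 * (2 * ((q + 1) * (2 * q + 3)) * (E : ℝ) ^ 2 * |(g : ℝ)| ^ (2 * q + 1)) := by
      calc (D : ℝ) ^ 2 * (|(g : ℝ)| * (V : ℝ) ^ (n - 1))
          = |(g : ℝ)| * ((D : ℝ) ^ 2 * (V : ℝ) ^ (n - 1)) := by ring
        _ ≤ |(g : ℝ)| * (((Y : ℝ) - V) * (V : ℝ) ^ (n - 1)) := by gcongr
        _ ≤ |(g : ℝ)| * |(Y : ℝ) ^ n - (V : ℝ) ^ n| := by gcongr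
        _ ≤ (q + 1) * (2 * q + 3) * (u : ℝ) ^ 2 * (|(g : ℝ)| + |(u : ℝ)|) ^ (2 * q + 1) := h1
        _ ≤ (q + 1) * (2 * q + 3) * (u : ℝ) ^ 2 * (2 * |(g : ℝ)| ^ (2 * q + 1)) := by gcongr
        _ = _ := by rw [hu2]; ring
    have h4 := le_of_mul_le_mul_left h3 (by positivity)
    -- multiply by `V`
    have h6 : (g : ℝ) ^ 2 ≤ 2 * ((q + 1) * (2 * q + 3)) * (E : ℝ) ^ 2 * V := by
      have h7 : |(g : ℝ)| ^ (2 * q + 1) * (g : ℝ) ^ 2 ≤
          |(g : ℝ)| ^ (2 * q + 1) * (2 * ((q + 1) * (2 * q + 3)) * (E : ℝ) ^ 2 * V) := by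
        have h8 : (V : ℝ) ^ (n - 1) * V = |(g : ℝ)| ^ (2 * (q + 1)) := by
          rw [← pow_succ, Nat.sub_add_cancel (by omega), hVn, ← sq_abs, ← pow_mul]
        calc |(g : ℝ)| ^ (2 * q + 1) * (g : ℝ) ^ 2
            = |(g : ℝ)| * |(g : ℝ)| ^ (2 * (q + 1)) := by rw [← sq_abs]; ring
          _ = (|(g : ℝ)| * (V : ℝ) ^ (n - 1)) * V := by rw [← h8]; ring
          _ ≤ (2 * ((q + 1) * (2 * q + 3)) * (E : ℝ) ^ 2 * |(g : ℝ)| ^ (2 * q + 1)) * V := by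
              gcongr
          _ = _ := by ring
      exact le_of_mul_le_mul_left h7 (by positivity)
    have h7 : B ≤ 2 * |(g : ℝ)| := by
      rw [hB]
      have : 1 * |(u : ℝ)| ≤ 2 * R * |(u : ℝ)| := by
        gcongr
        rw [hR]
        linarith
      linarith
    have h8 : 2 * (((q : ℝ) + 1) * (2 * q + 3)) ≤ R ^ 2 := by
      rw [hR]
      nlinarith
    calc B ^ 2 ≤ (2 * |(g : ℝ)|) ^ 2 := by gcongr
      _ = 4 * (g : ℝ) ^ 2 := by rw [mul_pow, sq_abs]; ring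
      _ ≤ 4 * (2 * ((q + 1) * (2 * q + 3)) * (E : ℝ) ^ 2 * V) := by gcongr
      _ ≤ 4 * (R ^ 2 * (E : ℝ) ^ 2 * ζ) := by gcongr
      _ ≤ 16 * R ^ 2 * (E : ℝ) ^ 2 * ζ := by
        have : 0 ≤ R ^ 2 * (E : ℝ) ^ 2 * ζ := by positivity
        linarith
  · push Not at hcase
    set R : ℝ := 2 * (k : ℝ) + 1 with hR
    have hR3 : 3 ≤ R := by
      rw [hR]
      linarith
    have h1 : (D : ℝ) ^ 2 ≤ 2 * ζ := by linarith
    have h2 : B ≤ (1 + 2 * R) * |(u : ℝ)| := by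
      rw [hB]
      linarith
    calc B ^ 2 ≤ ((1 + 2 * R) * |(u : ℝ)|) ^ 2 := by gcongr
      _ = (1 + 2 * R) ^ 2 * ((D : ℝ) ^ 2 * (E : ℝ) ^ 2) := by rw [mul_pow, sq_abs, hu2]
      _ ≤ (1 + 2 * R) ^ 2 * (2 * ζ * (E : ℝ) ^ 2) := by gcongr
      _ = (2 * (1 + 2 * R) ^ 2) * (ζ * (E : ℝ) ^ 2) := by ring
      _ ≤ (16 * R ^ 2) * (ζ * (E : ℝ) ^ 2) := by
          have h3 : 2 * (1 + 2 * R) ^ 2 ≤ 16 * R ^ 2 := by nlinarith
          exact mul_le_mul_of_nonneg_right h3 (by positivity)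
      _ = _ := by ring

theorem final {n r : ℕ} (hn : Odd n) (hn3 : 3 ≤ n) (hr : Odd r) (hr3 : 3 ≤ r) (hrn : r ≤ 2 * n + 1)
    {x y z : ℤ} (hx : x ≠ 0) (hy : y ≠ 0) (hxy : IsCoprime x y) (hz : Odd z)
    (hry : IsCoprime (r : ℤ) y) (h : x ^ 2 - y ^ (2 * n) = z ^ r) :
    ∃ E : ℕ, (E : ℤ) ∣ x ∧ (∀ l : ℕ, l.Prime → l ∣ E → 1 < Nat.gcd n (l * (l - 1))) ∧
      (|(x : ℝ)| + |(y : ℝ)| ^ n) ^ ((1 - ((r : ℝ) - 1) / (2 * n)) / r) ≤ 4 * r * E := by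
  obtain ⟨k, rfl⟩ := hr
  obtain ⟨g, u, Y, V, W, d⟩ := data hn (by omega) hx hy hxy hz hry h
  obtain ⟨E, h1, h2, h3⟩ := main_aux hn3 (by omega) (by omega) d
  refine ⟨E, h1, h2, ?_⟩
  have hu0R : (0 : ℝ) < |(u : ℝ)| := abs_pos.2 (by exact_mod_cast d.u0)
  have hh := d.height
  set B : ℝ := |(g : ℝ)| + |(u : ℝ)| with hB
  have hBpos : 0 < B := by positivity
  have hn0 : (0 : ℝ) < n := by
    have : 0 < n := by omega
    exact_mod_cast this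
  have hkn : (k : ℝ) ≤ n := by
    have : k ≤ n := by omega
    exact_mod_cast this
  have h5 : (B ^ 2) ^ (1 - (k : ℝ) / n) ≤ (4 * (2 * k + 1) * (E : ℝ)) ^ 2 := by
    rw [Real.rpow_sub (by positivity), Real.rpow_one,
      div_le_iff₀ (Real.rpow_pos_of_pos (by positivity) _)]
    calc B ^ 2 ≤ _ := h3
      _ = _ := by ring
  have h6 : B ^ (1 - (k : ℝ) / n) ≤ 4 * (2 * k + 1) * (E : ℝ) := by
    refine le_of_pow_le_pow_left₀ two_ne_zero (by positivity) ?_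
    refine le_trans (le_of_eq ?_) h5
    rw [← Real.rpow_natCast (B ^ (1 - (k : ℝ) / n)), ← Real.rpow_mul hBpos.le,
      ← Real.rpow_natCast B, ← Real.rpow_mul hBpos.le]
    congr 1
    push_cast
    ring
  have h7 : (0 : ℝ) ≤ (1 - (((2 * k + 1 : ℕ) : ℝ) - 1) / (2 * n)) / ((2 * k + 1 : ℕ) : ℝ) := by
    push_cast
    apply div_nonneg _ (by positivity)
    rw [sub_nonneg, div_le_one (by positivity)]
    linarith
  calc (|(x : ℝ)| + |(y : ℝ)| ^ n) ^ ((1 - (((2 * k + 1 : ℕ) : ℝ) - 1) / (2 * n)) / ((2 * k + 1 : ℕ) : ℝ))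
      ≤ (B ^ (2 * k + 1)) ^ ((1 - (((2 * k + 1 : ℕ) : ℝ) - 1) / (2 * n)) / ((2 * k + 1 : ℕ) : ℝ)) := by
        gcongr
    _ = B ^ (1 - (k : ℝ) / n) := by
        rw [← Real.rpow_natCast, ← Real.rpow_mul hBpos.le]
        congr 1
        push_cast
        field_simp
        ring
    _ ≤ 4 * (2 * k + 1) * (E : ℝ) := h6
    _ = _ := by push_cast; ring

end Pool.Agent.U792.D2
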