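import Mathlib
import Pool.Agent.U792.D2.Main

/-!
`x ^ 2 - y ^ (2 n) = z ^ r`, `z` odd, `r ≤ n`: a prime factor `l` of `x` has `gcd (n, l (l - 1)) > 1`.
-/

set_option autoImplicit false

namespace Pool.Agent.U792.D2

open Pool.Agent.U792.G2

theorem num4 (k : ℕ) : ((2 * k + 1 : ℕ) : ℝ) * 4 ^ k ≤ 3 ^ (2 * k + 1) := by
  have h1 : ((2 * k + 1 : ℕ) : ℝ) ≤ 3 * (9 / 4) ^ k := by
    induction k with
    | zero => norm_num
    | succ m ih =>
      rw [pow_succ]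
      push_cast at ih ⊢
      have h2 : (1 : ℝ) ≤ (9 / 4) ^ m := one_le_pow₀ (by norm_num)
      linarith
  calc ((2 * k + 1 : ℕ) : ℝ) * 4 ^ k ≤ (3 * (9 / 4) ^ k) * 4 ^ k := by gcongr
    _ = 3 ^ (2 * k + 1) := by
      rw [mul_assoc, ← mul_pow, pow_succ, pow_mul]
      norm_num
      ring

theorem num5 (k : ℕ) : ((2 * k + 1 : ℕ) : ℝ) * 3 ^ (2 * k) < 5 ^ (2 * k + 1) := by
  have h1 : ((2 * k + 1 : ℕ) : ℝ) < 5 * (25 / 9) ^ k := by
    induction k with
    | zero => norm_num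
    | succ m ih =>
      rw [pow_succ]
      push_cast at ih ⊢
      have h2 : (1 : ℝ) ≤ (25 / 9) ^ m := one_le_pow₀ (by norm_num)
      linarith
  have e1 : (3 : ℝ) ^ (2 * k) = 9 ^ k := by
    rw [pow_mul]
    norm_num
  have e2 : (5 : ℝ) ^ (2 * k + 1) = 5 * 25 ^ k := by
    rw [pow_succ, pow_mul]
    norm_num
    ring
  rw [e1, e2]
  calc ((2 * k + 1 : ℕ) : ℝ) * 9 ^ k < (5 * (25 / 9) ^ k) * 9 ^ k := by gcongr
    _ = 5 * (25 / 9 * 9) ^ k := by rw [mul_assoc, ← mul_pow]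
    _ = _ := by norm_num

theorem crit {n k : ℕ} (hn : Odd n) (hk : 1 ≤ k) (hkn : 2 * k + 1 ≤ n) {x y z : ℤ}
    (hx : x ≠ 0) (hy : y ≠ 0) (hxy : IsCoprime x y) (hz : Odd z)
    (hry : IsCoprime ((2 * k + 1 : ℕ) : ℤ) y) (h : x ^ 2 - y ^ (2 * n) = z ^ (2 * k + 1)) :
    ∃ l : ℕ, l.Prime ∧ (l : ℤ) ∣ x ∧ 1 < Nat.gcd n (l * (l - 1)) := by
  by_contra hnot
  push Not at hnot
  obtain ⟨g, u, Y, V, W, d⟩ := data hn hk hx hy hxy hz hry h
  have hn0 : n ≠ 0 := by omega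
  have hu0 := d.u0
  have hg0 := d.g0
  have hle : (u : ℝ) ^ 2 ≤ (Y : ℝ) - V := by
    have h1 := d.root u.natAbs (Int.natCast_dvd.2 dvd_rfl) (by
      intro l hl hld
      have h1 : (l : ℤ) ∣ x := (Int.natCast_dvd.2 hld).trans d.ux
      have h2 := hnot l hl h1
      have h3 : 0 < Nat.gcd n (l * (l - 1)) := Nat.gcd_pos_of_pos_left _ (Nat.pos_of_ne_zero hn0)
      exact Nat.Coprime.symm (by unfold Nat.Coprime; omega)) (Int.natAbs_ne_zero.2 hu0)
    have h2 : ((u.natAbs : ℝ)) = |(u : ℝ)| := by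
      rw [Nat.cast_natAbs]
      push_cast
      rfl
    rwa [h2, sq_abs] at h1
  have hVpos : (0 : ℝ) < V := by exact_mod_cast d.Vpos
  have hYV : (V : ℝ) < Y := by exact_mod_cast d.YV
  have hYpos : (0 : ℝ) < Y := hVpos.trans hYV
  have hF := (le_abs_self _).trans (F_le (by exact_mod_cast hg0) d.FR)
  have hu1 : (1 : ℝ) ≤ |(u : ℝ)| := by
    have : 1 ≤ |u| := Int.one_le_abs hu0
    exact_mod_cast this
  have hg1 : (1 : ℝ) ≤ |(g : ℝ)| := by
    have : 1 ≤ |g| := Int.one_le_abs hg0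
    exact_mod_cast this
  have hWabs : |(g : ℝ)| = |(W : ℝ)| ^ n := by
    rw [d.gW]
    push_cast
    rw [abs_pow]
  have hVW : (V : ℝ) = |(W : ℝ)| ^ (2 * k) := by
    rw [d.VW]
    push_cast
    rw [pow_mul, pow_mul, sq_abs]
  have h3n : ((2 * k + 1 : ℕ) : ℝ) * 4 ^ k ≤ 3 ^ n :=
    (num4 k).trans (pow_le_pow_right₀ (by norm_num) hkn)
  push_cast at h3n
  have hYgen : ∀ m : ℝ, 0 ≤ m → |(g : ℝ)| + |(u : ℝ)| ≤ 2 * m → (Y : ℝ) ^ n ≤ 3 ^ n * (m ^ 2) ^ k := by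
    intro m hm h1
    calc (Y : ℝ) ^ n ≤ (2 * k + 1) * (|(g : ℝ)| + |(u : ℝ)|) ^ (2 * k) := hF
      _ ≤ (2 * k + 1) * (2 * m) ^ (2 * k) := by gcongr
      _ = ((2 * k + 1) * 4 ^ k) * (m ^ 2) ^ k := by
          rw [mul_pow, pow_mul 2, pow_mul m]
          norm_num
          ring
      _ ≤ _ := by gcongr
  rcases le_or_gt |(g : ℝ)| |(u : ℝ)| with hcase | hcase
  · have h1 := hYgen |(u : ℝ)| (abs_nonneg _) (by linarith)
    have h3 : (|(u : ℝ)| ^ 2) ^ n ≤ 3 ^ n * (|(u : ℝ)| ^ 2) ^ k := by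
      have h6 : |(u : ℝ)| ^ 2 ≤ Y := by
        rw [sq_abs]
        linarith
      calc (|(u : ℝ)| ^ 2) ^ n ≤ (Y : ℝ) ^ n := by gcongr
        _ ≤ _ := h1
    have h4 : |(u : ℝ)| < 3 := by
      by_contra h5
      push Not at h5
      have h6 : (|(u : ℝ)| ^ 2) ^ (n - k) ≤ 3 ^ n := by
        have h7 : (|(u : ℝ)| ^ 2) ^ n = (|(u : ℝ)| ^ 2) ^ (n - k) * (|(u : ℝ)| ^ 2) ^ k := by
          rw [← pow_add]
          congr 1
          omega
        rw [h7] at h3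
        exact le_of_mul_le_mul_right h3 (by positivity)
      have h8 : (3 : ℝ) ^ (2 * (n - k)) ≤ 3 ^ n := by
        calc (3 : ℝ) ^ (2 * (n - k)) ≤ |(u : ℝ)| ^ (2 * (n - k)) := by gcongr
          _ = (|(u : ℝ)| ^ 2) ^ (n - k) := by rw [pow_mul]
          _ ≤ _ := h6
      have h9 := (pow_le_pow_iff_right₀ (by norm_num : (1 : ℝ) < 3)).1 h8
      omega
    have hua : |u| < 3 := by exact_mod_cast h4
    have hga : |g| ≤ |u| := by exact_mod_cast hcase
    have hu1' : 1 ≤ |u| := Int.one_le_abs hu0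
    have hg1' : 1 ≤ |g| := Int.one_le_abs hg0
    have hg1u2 : |g| = 1 ∧ |u| = 2 := by
      have ho := d.odd
      have hcop := d.cop
      have hu' : u = 1 ∨ u = -1 ∨ u = 2 ∨ u = -2 := by
        rcases abs_choice u with h5 | h5 <;> omega
      have hg' : g = 1 ∨ g = -1 ∨ g = 2 ∨ g = -2 := by
        rcases abs_choice g with h5 | h5 <;> omega
      have ho' := Int.odd_iff.1 ho
      rcases hu' with rfl | rfl | rfl | rfl <;> rcases hg' with rfl | rfl | rfl | rfl <;>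
        first
        | (exfalso; omega)
        | (refine ⟨?_, ?_⟩ <;> norm_num <;> done)
        | (exfalso; revert hga; norm_num)
    have hW1 : |(W : ℝ)| = 1 := by
      have h5 : |(W : ℝ)| ^ n = 1 := by
        rw [← hWabs]
        exact_mod_cast hg1u2.1
      exact (pow_eq_one_iff_of_nonneg (abs_nonneg _) hn0).1 h5
    have hV1 : (V : ℝ) = 1 := by rw [hVW, hW1, one_pow]
    have hY5 : (5 : ℝ) ≤ Y := by
      have h5 : (u : ℝ) ^ 2 = 4 := by
        rw [← sq_abs]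
        have : |(u : ℝ)| = 2 := by exact_mod_cast hg1u2.2
        rw [this]
        norm_num
      linarith
    have h5 : (5 : ℝ) ^ n ≤ (2 * k + 1) * 3 ^ (2 * k) := by
      calc (5 : ℝ) ^ n ≤ (Y : ℝ) ^ n := by gcongr
        _ ≤ (2 * k + 1) * (|(g : ℝ)| + |(u : ℝ)|) ^ (2 * k) := hF
        _ = _ := by
          have e1 : |(g : ℝ)| = 1 := by exact_mod_cast hg1u2.1
          have e2 : |(u : ℝ)| = 2 := by exact_mod_cast hg1u2.2
          rw [e1, e2]
          norm_num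
    have h6 := num5 k
    have h7 : (5 : ℝ) ^ (2 * k + 1) ≤ 5 ^ n := pow_le_pow_right₀ (by norm_num) hkn
    push_cast at h6
    linarith
  · have hgz : 2 ≤ |g| := by
      have h1 : |u| < |g| := by exact_mod_cast hcase
      have h2 : 1 ≤ |u| := Int.one_le_abs hu0
      omega
    have hW2 : 2 ≤ |W| := by
      by_contra h1
      push Not at h1
      have h2 : |g| ≤ 1 := by
        rw [d.gW, abs_pow]
        exact pow_le_one₀ (abs_nonneg _) (by omega)
      omega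
    have hw2 : (2 : ℝ) ≤ |(W : ℝ)| := by exact_mod_cast hW2
    set w : ℝ := |(W : ℝ)| with hw
    set a : ℝ := |(u : ℝ)| with ha
    set t : ℝ := |(g : ℝ)| with ht
    have hw0 : 0 < w := by linarith
    have ht0 : 0 < t := by linarith
    have ha0 : 0 < a := by linarith
    have h1 := hYgen t ht0.le (by linarith)
    have hY2 : (Y : ℝ) ≤ 3 * w ^ (2 * k) := by
      refine le_of_pow_le_pow_left₀ hn0 (by positivity) ?_
      refine h1.trans (le_of_eq ?_)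
      rw [mul_pow, hWabs, ← pow_mul, ← pow_mul, ← pow_mul]
      congr 2
      ring
    have ha2 : a ^ 2 ≤ 3 * w ^ (2 * k) := by
      rw [ha, sq_abs]
      linarith
    have h4k : (4 : ℝ) ^ (k + 1) ≤ w ^ (2 * (n - k)) := by
      calc (4 : ℝ) ^ (k + 1) = 2 ^ (2 * (k + 1)) := by rw [pow_mul]; norm_num
        _ ≤ w ^ (2 * (k + 1)) := by gcongr
        _ ≤ w ^ (2 * (n - k)) := pow_le_pow_right₀ (by linarith) (by omega)
    have ht2 : t ^ 2 = w ^ (2 * k) * w ^ (2 * (n - k)) := by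
      rw [hWabs, ← pow_add, ← pow_mul]
      congr 1
      omega
    have hat : 4 ^ (k + 1) * a ^ 2 ≤ 3 * t ^ 2 := by
      calc 4 ^ (k + 1) * a ^ 2 ≤ w ^ (2 * (n - k)) * (3 * w ^ (2 * k)) := by gcongr
        _ = _ := by rw [ht2]; ring
    obtain ⟨q, rfl⟩ : ∃ q, k = q + 1 := ⟨k - 1, by omega⟩
    have h2 := F_diff d.FR
    have hVR : (Y : ℝ) ^ n - (g : ℝ) ^ (2 * (q + 1)) = (Y : ℝ) ^ n - (V : ℝ) ^ n := by
      have : ((V : ℝ)) ^ n = (g : ℝ) ^ (2 * (q + 1)) := by exact_mod_cast d.Vn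
      rw [this]
    rw [hVR, ← ht, ← ha] at h2
    have hlog : (2 * (q : ℝ) + 1) * (a / t) ≤ Real.log 2 := by
      have h3 : ((2 * (q : ℝ) + 1) * (a / t)) ^ 2 ≤ 27 / 64 := by
        rw [mul_pow, div_pow, ← mul_div_assoc, div_le_div_iff₀ (by positivity) (by norm_num)]
        have h5 := num1 (q + 1) (by omega)
        push_cast at h5
        have h6 : (8 * (2 * (q : ℝ) + 1)) ^ 2 ≤ (3 * 2 ^ (q + 1 + 1)) ^ 2 := by
          have h7 : 8 * (2 * (q : ℝ) + 1) ≤ 3 * 2 ^ (q + 1 + 1) := by linarith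
          gcongr
        have h8 : (3 * (2 : ℝ) ^ (q + 1 + 1)) ^ 2 = 9 * 4 ^ (q + 1 + 1) := by
          rw [mul_pow, ← pow_mul, mul_comm (q + 1 + 1) 2, pow_mul]
          norm_num
        rw [h8] at h6
        calc (2 * (q : ℝ) + 1) ^ 2 * a ^ 2 * 64 = (8 * (2 * (q : ℝ) + 1)) ^ 2 * a ^ 2 := by ring
          _ ≤ (9 * 4 ^ (q + 1 + 1)) * a ^ 2 := by gcongr
          _ = 9 * (4 ^ (q + 1 + 1) * a ^ 2) := by ring
          _ ≤ 9 * (3 * t ^ 2) := by gcongr
          _ = _ := by ring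
      have h4 : (2 * (q : ℝ) + 1) * (a / t) ≤ 0.66 := by
        refine abs_le_of_sq_le_sq' ?_ (by norm_num) |>.2
        calc _ ≤ _ := h3
          _ ≤ _ := by norm_num
      have := Real.log_two_gt_d9
      linarith
    have hpow : (t + a) ^ (2 * q + 1) ≤ 2 * t ^ (2 * q + 1) := by
      have h3 : t + a ≤ t * Real.exp (a / t) := by
        have h4 := Real.add_one_le_exp (a / t)
        calc t + a = t * (a / t + 1) := by field_simp; ring
          _ ≤ _ := by gcongr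
      calc (t + a) ^ (2 * q + 1) ≤ (t * Real.exp (a / t)) ^ (2 * q + 1) := by gcongr
        _ = t ^ (2 * q + 1) * Real.exp (((2 * q + 1 : ℕ) : ℝ) * (a / t)) := by
            rw [mul_pow, ← Real.exp_nat_mul]
        _ ≤ t ^ (2 * q + 1) * Real.exp (Real.log 2) := by
            gcongr
            push_cast
            exact hlog
        _ = _ := by
            rw [Real.exp_log (by norm_num)]
            ring
    have h3 : |(Y : ℝ) - V| * |(V : ℝ)| ^ (n - 1) ≤ |(Y : ℝ) ^ n - (V : ℝ) ^ n| :=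
      abs_pow_sub_ge (mul_pos hYpos hVpos) hn0
    rw [abs_of_pos (sub_pos.2 hYV), abs_of_pos hVpos, hVW] at h3
    rw [hVW] at h2
    have h4 : a ^ 2 * (t * (w ^ (2 * (q + 1))) ^ (n - 1)) ≤
        a ^ 2 * (2 * ((q + 1) * (2 * q + 3)) * t ^ (2 * q + 1)) := by
      have h5 : a ^ 2 ≤ (Y : ℝ) - w ^ (2 * (q + 1)) := by
        rw [ha, sq_abs, ← hVW]
        exact hle
      calc a ^ 2 * (t * (w ^ (2 * (q + 1))) ^ (n - 1))
          = t * (a ^ 2 * (w ^ (2 * (q + 1))) ^ (n - 1)) := by ring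
        _ ≤ t * (((Y : ℝ) - w ^ (2 * (q + 1))) * (w ^ (2 * (q + 1))) ^ (n - 1)) := by gcongr
        _ ≤ t * |(Y : ℝ) ^ n - (w ^ (2 * (q + 1))) ^ n| := by gcongr
        _ ≤ (q + 1) * (2 * q + 3) * (u : ℝ) ^ 2 * (t + a) ^ (2 * q + 1) := h2
        _ ≤ (q + 1) * (2 * q + 3) * (u : ℝ) ^ 2 * (2 * t ^ (2 * q + 1)) := by gcongr
        _ = _ := by
            rw [← sq_abs (u : ℝ), ← ha]
            ring
    have h5 := le_of_mul_le_mul_left h4 (by positivity)
    have h6 : t * (w ^ (2 * (q + 1))) ^ (n - 1) = w ^ (2 * (n - (q + 1))) * t ^ (2 * q + 1) := by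
      rw [hWabs, ← pow_mul, ← pow_mul, ← pow_add, ← pow_add]
      congr 1
      obtain ⟨m, rfl⟩ : ∃ m, n = (q + 1) + m := ⟨n - (q + 1), by omega⟩
      have e1 : q + 1 + m - 1 = q + m := by omega
      have e2 : q + 1 + m - (q + 1) = m := by omega
      rw [e1, e2]
      ring
    rw [h6] at h5
    have h7 := le_of_mul_le_mul_right h5 (by positivity)
    have h8 := num2 (q + 1) (by omega)
    have h9 := h4k.trans h7
    rw [pow_succ] at h9
    push_cast at h8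
    have h10 : (0 : ℝ) ≤ q := Nat.cast_nonneg q
    nlinarith

end Pool.Agent.U792.D2
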